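import Mathlib
import Pool.Agent.Lib.H65.FadK

/-!
# Fixed points of confined endomorphisms of vector groups over algebraically closed fields

Let `K` be any algebraically closed field of characteristic `p > 0`.  We prove that for every
`r` and every confined endomorphism `σ` of the algebraic group `𝔾ₐ^r` over `K` the sequence of
numbers of fixed points of the iterates of `σ` has the FAD form of the problem.
-/

namespace Pool.Agent.Results.MP_09943a_nt.VectorGroups

universe u

/-- `σ : K^r → K^r` is the map on `K`-points of an endomorphism of the algebraic group `𝔾ₐ^r`: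
it is a homomorphism for addition, and it is a morphism of varieties, i.e. each of its `r`
coordinates is given by a polynomial in `r` variables with coefficients in `K`.  (For `K`
algebraically closed, `K^r → K^r` determines the morphism of reduced varieties.) -/
structure IsEndomorphism {K : Type u} [Field K] {r : ℕ} (σ : (Fin r → K) → (Fin r → K)) :
    Prop where
  map_add : ∀ x y : Fin r → K, σ (x + y) = σ x + σ y
  polynomial : ∃ P : Fin r → MvPolynomial (Fin r) K, ∀ (x : Fin r → K) (i : Fin r),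
    σ x i = MvPolynomial.eval x (P i)

/-- `σ` is confined: every iterate `σ^n`, `n ≥ 1`, has only finitely many fixed points. -/
def IsConfined {X : Type u} (σ : X → X) : Prop :=
  ∀ n : ℕ, 1 ≤ n → Set.Finite {x : X | σ^[n] x = x}

/-- `σ_n`, the number of fixed points of the `n`-th iterate of `σ`. -/
noncomputable def fixedPointCount {X : Type u} (σ : X → X) (n : ℕ) : ℕ :=
  Nat.card {x : X // σ^[n] x = x}

/-- `(a_n)_{n ≥ 1}` is a gcd sequence with period `d ≥ 1`: `a_n = a_{gcd(n,d)}` for `n ≥ 1`. -/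
def IsGcdSequence {α : Type} (a : ℕ → α) (d : ℕ) : Prop :=
  1 ≤ d ∧ ∀ n : ℕ, 1 ≤ n → a n = a (Nat.gcd n d)

/-- The FAD form for the prime `p`: for all `n ≥ 1`
`a_n = |d_n| c^n r_n |n|_p^{s_n} p^{-t_n |n|_p^{-1}}` with `d_n = det (A^n - 1) ≠ 0` for an integer
matrix `A`, `c = p^e`, `(r_n)` a gcd sequence of positive rationals and `(s_n)`, `(t_n)` gcd
sequences of nonnegative integers, each with a period prime to `p`. Here `|n|_p = padicNorm p n`
and `|n|_p^{-1} = p ^ padicValNat p n`. -/
def HasFADForm (p : ℕ) (a : ℕ → ℕ) : Prop :=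
  ∃ (k : ℕ) (A : Matrix (Fin k) (Fin k) ℤ) (e : ℕ) (r : ℕ → ℚ) (s t : ℕ → ℕ),
    (∀ n : ℕ, 1 ≤ n → (A ^ n - 1).det ≠ 0) ∧
    (∃ d : ℕ, IsGcdSequence r d) ∧ (∀ n : ℕ, 1 ≤ n → 0 < r n) ∧
    (∃ d : ℕ, d.Coprime p ∧ IsGcdSequence s d) ∧
    (∃ d : ℕ, d.Coprime p ∧ IsGcdSequence t d) ∧
    ∀ n : ℕ, 1 ≤ n → (a n : ℚ) =
      |((A ^ n - 1).det : ℚ)| * ((p : ℚ) ^ e) ^ n * r n * (padicNorm p n) ^ (s n) *
        (p : ℚ) ^ (-((t n * p ^ (padicValNat p n) : ℕ) : ℤ))

/-- **Theorem.** For every algebraically closed field `K` of characteristic `p > 0`, every `r` and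
every confined endomorphism `σ` of the vector group `𝔾ₐ^r` over `K`, the sequence `(σ_n)` has the
FAD form. -/
theorem result (p : ℕ) (hp : p.Prime) (K : Type u) [Field K] [IsAlgClosed K] [CharP K p] (r : ℕ)
    (σ : (Fin r → K) → (Fin r → K)) (hσ : IsEndomorphism σ) (hconf : IsConfined σ) :
    HasFADForm p (fixedPointCount σ) := by
  have : Fact p.Prime := ⟨hp⟩
  let _ : Algebra (ZMod p) K := ZMod.algebra K p
  have : Infinite K := IsAlgClosed.instInfinite
  have : ExpChar K p := ExpChar.prime hp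
  have : PerfectRing K p := inferInstance
  let φ : RingAut K := frobeniusEquiv K p
  have hφ : ∀ x, φ x = x ^ p := fun x => by
    change frobeniusEquiv K p x = x ^ p
    rw [frobeniusEquiv_apply, frobenius_def]
  obtain ⟨P, hP⟩ := hσ.polynomial
  have hmor := Pool.Agent.Lib.H65.Fad.isMor_of_polynomial hφ σ hσ.map_add P hP
  obtain ⟨c, t, d, hd1, hdp, ht, hmain⟩ := Pool.Agent.Lib.H65.Fad.fad_core hφ hmor hconf
  refine ⟨1, 0, c, fun _ => 1, fun _ => 0, t, ?_, ⟨1, le_rfl, fun _ _ => rfl⟩, fun _ _ => one_pos,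
    ⟨1, Nat.coprime_one_left p, le_rfl, fun _ _ => rfl⟩, ⟨d, hdp, hd1, ht⟩, ?_⟩
  · intro n hn
    rw [zero_pow (by omega)]
    simp
  · intro n hn
    have h1 := hmain n hn
    have hp0 : (p : ℚ) ≠ 0 := by exact_mod_cast hp.ne_zero
    have h2 : (fixedPointCount σ n : ℚ) * (p : ℚ) ^ (t n * p ^ (padicValNat p n)) =
        (p : ℚ) ^ (c * n) := by
      unfold fixedPointCount
      exact_mod_cast h1
    have h3 : (((0 : Matrix (Fin 1) (Fin 1) ℤ) ^ n - 1).det : ℚ) = -1 := by
      rw [zero_pow (by omega)]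
      simp
    rw [h3, zpow_neg, zpow_natCast, ← pow_mul]
    rw [eq_mul_inv_iff_mul_eq₀ (pow_ne_zero _ hp0), h2]
    simp

end Pool.Agent.Results.MP_09943a_nt.VectorGroups
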